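import Pool.Agent.Y119.HG.Defs

/-!
# HG-DER: extension of derivations in characteristic zero
-/

set_option autoImplicit false

open Pool.Agent.Y119.HG

namespace Pool.Agent.Y421.HG

/-- the dual numbers, without algebra instances -/
def EE (L : Type) : Type := TrivSqZeroExt L L

instance (L : Type) [Field L] : CommRing (EE L) := inferInstanceAs (CommRing (TrivSqZeroExt L L))

section

variable {k L : Type} [Field k] [Field L] [Algebra k L] {ι : Type} [Fintype ι] (x v : ι → L)

/-- the map to the dual numbers -/
noncomputable def ff : MvPolynomial ι k →ₐ[k] TrivSqZeroExt L L :=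
  MvPolynomial.aeval (fun i => TrivSqZeroExt.inl (x i) + TrivSqZeroExt.inr (v i))

omit [Fintype ι] in
theorem ff_fst (P : MvPolynomial ι k) : (ff (k := k) x v P).fst = MvPolynomial.aeval x P := by
  induction P using MvPolynomial.induction_on with
  | C a =>
    simp only [ff, MvPolynomial.aeval_C]
    rfl
  | add p q hp hq => rw [map_add, map_add, TrivSqZeroExt.fst_add, hp, hq]
  | mul_X p i hp =>
    rw [map_mul, map_mul, TrivSqZeroExt.fst_mul, hp]
    simp [ff]

theorem ff_snd (P : MvPolynomial ι k) : (ff (k := k) x v P).snd =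
    ∑ i, MvPolynomial.aeval x (MvPolynomial.pderiv i P) * v i := by
  classical
  induction P using MvPolynomial.induction_on with
  | C a =>
    simp only [ff, MvPolynomial.aeval_C, MvPolynomial.pderiv_C, map_zero, zero_mul,
      Finset.sum_const_zero]
    rfl
  | add p q hp hq =>
    rw [map_add, TrivSqZeroExt.snd_add, hp, hq, ← Finset.sum_add_distrib]
    refine Finset.sum_congr rfl fun i _ => ?_
    rw [map_add, map_add, add_mul]
  | mul_X p j hp =>
    rw [map_mul, TrivSqZeroExt.snd_mul, hp, ff_fst, ff_fst]
    have h1 : (ff (k := k) x v (MvPolynomial.X j)).snd = v j := by simp [ff]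
    rw [h1, MvPolynomial.aeval_X, op_smul_eq_smul, smul_eq_mul, smul_eq_mul,
      Finset.mul_sum]
    have h2 : ∀ i, MvPolynomial.aeval x (MvPolynomial.pderiv i (p * MvPolynomial.X j)) * v i =
        MvPolynomial.aeval x p * (if i = j then v j else 0) +
          x j * (MvPolynomial.aeval x (MvPolynomial.pderiv i p) * v i) := by
      intro i
      rw [Derivation.leibniz, MvPolynomial.pderiv_X, map_add, smul_eq_mul, smul_eq_mul, map_mul,
        map_mul, MvPolynomial.aeval_X]
      by_cases hij : i = j
      · subst hij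
        simp
        ring
      · rw [if_neg hij, Pi.single_apply, if_neg (fun h => hij h.symm)]
        simp
        ring
    rw [Finset.sum_congr rfl fun i _ => h2 i, Finset.sum_add_distrib]
    simp

open scoped IntermediateField.algebraAdjoinAdjoin in
/-- a field of characteristic zero is formally smooth over the rings generated by finitely many
elements -/
theorem smooth_adj [CharZero L] :
    Algebra.FormallySmooth (Algebra.adjoin k (Set.range x)) L := by
  let F := IntermediateField.adjoin k (Set.range x)
  have h1 : Algebra.FormallySmooth (Algebra.adjoin k (Set.range x)) F :=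
    .of_isLocalization (nonZeroDivisors _)
  have : CharZero F := ⟨fun a b h => by
    have h5 := congrArg (algebraMap F L) h
    rw [map_natCast, map_natCast] at h5
    exact Nat.cast_injective h5⟩
  obtain ⟨κ, y, hy⟩ := exists_isTranscendenceBasis' F L
  have h2 : Algebra.IsAlgebraic (IntermediateField.adjoin F (Set.range y)) L := hy.isAlgebraic_field
  have h3 : Algebra.IsSeparable (IntermediateField.adjoin F (Set.range y)) L := inferInstance
  have h4 : Algebra.FormallySmooth F L :=
    Algebra.FormallySmooth.of_algebraicIndependent_of_isSeparable hy.1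
  exact .comp _ F _

end

theorem t_DER : T_DER := by
  intro k L _ _ _ _ ι _ x v hv
  classical
  obtain ⟨φ, hφ1⟩ : ∃ φ : MvPolynomial ι k →ₐ[k] Algebra.adjoin k (Set.range x),
      ∀ P, ((φ P : Algebra.adjoin k (Set.range x)) : L) = MvPolynomial.aeval x P := by
    refine ⟨(MvPolynomial.aeval x).codRestrict (Algebra.adjoin k (Set.range x)) fun P => ?_,
      fun P => rfl⟩
    rw [Algebra.adjoin_range_eq_range_aeval]
    exact ⟨P, rfl⟩
  have hφ : Function.Surjective (φ : MvPolynomial ι k →+* Algebra.adjoin k (Set.range x)) := by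
    rintro ⟨y, hy⟩
    rw [Algebra.adjoin_range_eq_range_aeval] at hy
    obtain ⟨P, hP⟩ := hy
    exact ⟨P, Subtype.ext ((hφ1 P).trans hP)⟩
  let f : MvPolynomial ι k →+* EE L := (ff (k := k) x v).toRingHom
  have hker : RingHom.ker (φ : MvPolynomial ι k →+* Algebra.adjoin k (Set.range x)) ≤
      RingHom.ker f := by
    intro P hP
    have h1 : MvPolynomial.aeval x P = 0 := by
      rw [← hφ1 P]
      exact congrArg Subtype.val hP
    refine TrivSqZeroExt.ext ?_ ?_
    · exact (ff_fst x v P).trans h1
    · exact (ff_snd x v P).trans (hv P h1)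
  obtain ⟨g, hg⟩ : ∃ g : Algebra.adjoin k (Set.range x) →+* EE L, ∀ P, g (φ P) = f P :=
    ⟨RingHom.liftOfSurjective (φ : MvPolynomial ι k →+* Algebra.adjoin k (Set.range x)) hφ
      ⟨f, hker⟩, fun P => RingHom.liftOfSurjective_comp_apply _ hφ ⟨f, hker⟩ P⟩
  let : Algebra (Algebra.adjoin k (Set.range x)) (EE L) := g.toAlgebra
  have := smooth_adj (k := k) x
  let p : EE L →ₐ[Algebra.adjoin k (Set.range x)] L :=
    { toFun := fun z => TrivSqZeroExt.fst z
      map_one' := rfl
      map_mul' := fun _ _ => rfl
      map_zero' := rfl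
      map_add' := fun _ _ => rfl
      commutes' := by
        intro r
        obtain ⟨P, rfl⟩ := hφ r
        show TrivSqZeroExt.fst (g (φ P)) = ((φ P : Algebra.adjoin k (Set.range x)) : L)
        rw [hg, hφ1]
        exact ff_fst x v P }
  have hp : Function.Surjective p := fun y => ⟨(TrivSqZeroExt.inl y : TrivSqZeroExt L L), rfl⟩
  have hnil : IsNilpotent (RingHom.ker (p : EE L →+* L)) := by
    refine ⟨2, ?_⟩
    rw [pow_two, Submodule.zero_eq_bot, eq_bot_iff, Ideal.mul_le]
    intro r hr s hs
    have h1 : TrivSqZeroExt.fst (r : TrivSqZeroExt L L) = 0 := hr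
    have h2 : TrivSqZeroExt.fst (s : TrivSqZeroExt L L) = 0 := hs
    rw [Ideal.mem_bot]
    refine TrivSqZeroExt.ext ?_ ?_
    · show TrivSqZeroExt.fst (r : TrivSqZeroExt L L) * TrivSqZeroExt.fst (s : TrivSqZeroExt L L) = 0
      rw [h1, zero_mul]
    · show TrivSqZeroExt.fst (r : TrivSqZeroExt L L) • TrivSqZeroExt.snd (s : TrivSqZeroExt L L) +
        MulOpposite.op (TrivSqZeroExt.fst (s : TrivSqZeroExt L L)) •
          TrivSqZeroExt.snd (r : TrivSqZeroExt L L) = 0
      rw [h1, h2, zero_smul, MulOpposite.op_zero, zero_smul, add_zero]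
  let h := Algebra.FormallySmooth.liftOfSurjective
    (AlgHom.id (Algebra.adjoin k (Set.range x)) L) p hp hnil
  have hh : ∀ y, TrivSqZeroExt.fst (h y : TrivSqZeroExt L L) = y := fun y =>
    Algebra.FormallySmooth.liftOfSurjective_apply
      (AlgHom.id (Algebra.adjoin k (Set.range x)) L) p hp hnil y
  have hhA : ∀ P, h (MvPolynomial.aeval x P) = f P := by
    intro P
    have h1 := h.commutes (φ P)
    have h2 : algebraMap (Algebra.adjoin k (Set.range x)) L (φ P) = MvPolynomial.aeval x P := hφ1 P
    rw [h2] at h1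
    rw [h1]
    exact hg P
  have hmul : ∀ a b, TrivSqZeroExt.snd (h (a * b) : TrivSqZeroExt L L) =
      a * TrivSqZeroExt.snd (h b : TrivSqZeroExt L L) +
        b * TrivSqZeroExt.snd (h a : TrivSqZeroExt L L) := by
    intro a b
    rw [map_mul]
    have h1 : TrivSqZeroExt.snd ((h a * h b : EE L) : TrivSqZeroExt L L) =
      TrivSqZeroExt.fst (h a : TrivSqZeroExt L L) • TrivSqZeroExt.snd (h b : TrivSqZeroExt L L) +
        MulOpposite.op (TrivSqZeroExt.fst (h b : TrivSqZeroExt L L)) •
          TrivSqZeroExt.snd (h a : TrivSqZeroExt L L) := rfl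
    rw [h1, hh, hh, op_smul_eq_smul, smul_eq_mul, smul_eq_mul]
  have halg : ∀ c : k, TrivSqZeroExt.snd (h (algebraMap k L c) : TrivSqZeroExt L L) = 0 := by
    intro c
    have h1 := hhA (MvPolynomial.C c)
    rw [MvPolynomial.aeval_C] at h1
    rw [h1]
    refine (ff_snd x v _).trans ?_
    simp
  let Dl : L →ₗ[k] L :=
    { toFun := fun y => TrivSqZeroExt.snd (h y : TrivSqZeroExt L L)
      map_add' := fun a b => by rw [map_add]; rfl
      map_smul' := fun c a => by
        rw [Algebra.smul_def, hmul, halg, mul_zero, add_zero, RingHom.id_apply, Algebra.smul_def] }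
  refine ⟨Derivation.mk' Dl fun a b => ?_, fun i => ?_⟩
  · rw [smul_eq_mul, smul_eq_mul]
    exact hmul a b
  · show TrivSqZeroExt.snd (h (x i) : TrivSqZeroExt L L) = v i
    have h1 := hhA (MvPolynomial.X i)
    rw [MvPolynomial.aeval_X] at h1
    rw [h1]
    show (ff (k := k) x v (MvPolynomial.X i)).snd = v i
    simp [ff]

end Pool.Agent.Y421.HG
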