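import Pool.Agent.Y119.HG.Defs

/-!
# HG-KER: kernel argument
-/

set_option autoImplicit false

open Matrix Pool.Agent.Y119.HG

namespace Pool.Agent.Y421.HG

/-- `Ysp` as a linear map -/
def YL (m : ℕ) (L : Type) [Field L] :
    (Matrix (Fin m) (Fin m) L × Matrix (Fin m) (Fin m) L) →ₗ[L] Matrix (S m) (S m) L where
  toFun p := Ysp p.1 p.2
  map_add' p q := by
    ext (i | i) (j | j) <;> simp [Ysp]
    ring
  map_smul' c p := by
    ext (i | i) (j | j) <;> simp [Ysp]

/-- a derivation applied to the entries of a matrix is linear in the derivation -/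
def ML (k L : Type) [Field k] [Field L] [Algebra k L] {ι κ : Type} (T : Matrix ι κ L) :
    Derivation k L L →ₗ[L] Matrix ι κ L where
  toFun D := T.map D
  map_add' D D' := by
    ext i j
    simp
  map_smul' c D := by
    ext i j
    simp

theorem t_KER : T_KER := by
  intro k L _ _ _ m ι _ _ G T hd V hV hdim
  obtain ⟨π, hπ⟩ := hd.lim
  let p := Module.finBasis L V
  choose D hD using fun i => hd.gen (p i).1.1 (p i).1.2 (hV _ (p i).2)
  let φ : (Fin (Module.finrank L V) → L) →ₗ[L] (Fin (m + 1) → L) :=
    (π.comp (ML k L T)).comp (Fintype.linearCombination L D)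
  have hk : LinearMap.ker φ ≠ ⊥ := LinearMap.ker_ne_bot_of_finrank_lt (by
    rw [Module.finrank_fin_fun, Module.finrank_fin_fun]
    omega)
  obtain ⟨x, hx, hx0⟩ := Submodule.exists_mem_ne_zero_of_ne_bot hk
  set D' := Fintype.linearCombination L D x with hD'
  set p' : V := Fintype.linearCombination L p x with hp'
  have hp0 : p' ≠ 0 := by
    intro h
    apply hx0
    have h1 := Fintype.linearIndependent_iff.mp p.linearIndependent x
      (by rw [← h, hp', Fintype.linearCombination_apply])
    exact funext h1
  obtain ⟨z, hz⟩ := hπ D' (LinearMap.mem_ker.mp hx)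
  refine ⟨p'.1, p'.2, fun h => hp0 (Subtype.ext h), D', z, ?_, hz⟩
  have h1 : (ML k L G) D' = YL m L p'.1 * G := by
    rw [hD', hp', Fintype.linearCombination_apply, Fintype.linearCombination_apply, map_sum]
    push_cast
    rw [map_sum, Matrix.sum_mul]
    refine Finset.sum_congr rfl fun i _ => ?_
    rw [map_smul, map_smul, Matrix.smul_mul]
    congr 1
    exact hD i
  exact h1

end Pool.Agent.Y421.HG
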